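import Pool.Agent.Q63.ISO.Stm

/-! PROJECT ISO (helper63): JOB LOC. -/

set_option autoImplicit false

open MeasureTheory Set Filter Metric
open scoped FourierTransform ContDiff Convolution Topology

namespace Pool.Agent.Q38.ISO.LOC

open Pool.Agent.Q63.ISO

/-- coordinates -/
noncomputable abbrev pr (i : Fin 2) : P →L[ℝ] ℝ := EuclideanSpace.proj i

theorem decomp (v : P) : v = v 0 • be 0 + v 1 • be 1 := by
  ext i
  fin_cases i <;> simp [be]

/-- a one form -/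
noncomputable def om (p q : P → ℝ) (x : P) : P →L[ℝ] ℝ := p x • pr 0 + q x • pr 1

theorem om_apply (p q : P → ℝ) (x v : P) : om p q x v = p x * v 0 + q x * v 1 := by
  simp [om]

theorem om_smooth {p q : P → ℝ} {B : Set P} (hp : ContDiffOn ℝ ∞ p B) (hq : ContDiffOn ℝ ∞ q B) :
    ContDiffOn ℝ ∞ (om p q) B :=
  (hp.smul contDiffOn_const).add (hq.smul contDiffOn_const)

/-- primitives -/
theorem prim {p q : P → ℝ} {B : Set P} (hB : IsOpen B) (hc : Convex ℝ B)
    (hp : ContDiffOn ℝ ∞ p B) (hq : ContDiffOn ℝ ∞ q B)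
    (hcl : ∀ x ∈ B, fderiv ℝ q x (be 0) = fderiv ℝ p x (be 1)) :
    ∃ f : P → ℝ, (∀ x ∈ B, HasFDerivAt f (om p q x) x) ∧ ContDiffOn ℝ ∞ f B := by
  have hom := om_smooth hp hq
  have homd : DifferentiableOn ℝ (om p q) B := hom.differentiableOn (by simp)
  obtain ⟨f, hf⟩ := hc.exists_forall_hasFDerivAt_of_fderiv_symmetric hB homd (by
      intro x hx u v
      have dp := (hp.differentiableOn (by simp)).differentiableAt (hB.mem_nhds hx)
      have dq := (hq.differentiableOn (by simp)).differentiableAt (hB.mem_nhds hx)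
      have hd : HasFDerivAt (om p q)
          ((fderiv ℝ p x).smulRight (pr 0) + (fderiv ℝ q x).smulRight (pr 1)) x :=
        (dp.hasFDerivAt.smul_const (pr 0)).add (dq.hasFDerivAt.smul_const (pr 1))
      rw [hd.fderiv]
      have e1 : ∀ w : P, fderiv ℝ p x w = w 0 * fderiv ℝ p x (be 0) + w 1 * fderiv ℝ p x (be 1) := by
        intro w
        conv_lhs => rw [decomp w]
        rw [map_add, map_smul, map_smul, smul_eq_mul, smul_eq_mul]
      have e2 : ∀ w : P, fderiv ℝ q x w = w 0 * fderiv ℝ q x (be 0) + w 1 * fderiv ℝ q x (be 1) := by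
        intro w
        conv_lhs => rw [decomp w]
        rw [map_add, map_smul, map_smul, smul_eq_mul, smul_eq_mul]
      show (fderiv ℝ p x u) * (v 0) + (fderiv ℝ q x u) * (v 1)
        = (fderiv ℝ p x v) * (u 0) + (fderiv ℝ q x v) * (u 1)
      rw [e1 u, e1 v, e2 u, e2 v, hcl x hx]
      ring)
  refine ⟨f, hf, ?_⟩
  rw [contDiffOn_infty_iff_fderiv_of_isOpen hB]
  refine ⟨fun x hx => (hf x hx).differentiableAt.differentiableWithinAt, ?_⟩
  exact hom.congr fun x hx => (hf x hx).fderiv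

/-- two independent forms -/
theorem inj {a0 a1 b0 b1 v0 v1 : ℝ} (hd : a0 * b1 - a1 * b0 ≠ 0) (h1 : a0 * v0 + a1 * v1 = 0)
    (h2 : b0 * v0 + b1 * v1 = 0) : v0 = 0 ∧ v1 = 0 := by
  constructor
  · have : (a0 * b1 - a1 * b0) * v0 = 0 := by linear_combination b1 * h1 - a1 * h2
    exact (mul_eq_zero.1 this).resolve_left hd
  · have : (a0 * b1 - a1 * b0) * v1 = 0 := by linear_combination a0 * h2 - b0 * h1
    exact (mul_eq_zero.1 this).resolve_left hd

theorem pos_form {M : Matrix (Fin 2) (Fin 2) ℝ} (hM : Pos2 M) {x y : ℝ} (hx : 0 < x) :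
    0 < x * (M 0 0 * x + M 0 1 * y) + y * (M 1 0 * x + M 1 1 * y) := by
  obtain ⟨h1, h2, h3⟩ := hM
  rw [Matrix.det_fin_two, ← h1] at h3
  rw [← h1]
  have h4 : 0 < M 0 0 * (x * (M 0 0 * x + M 0 1 * y) + y * (M 0 1 * x + M 1 1 * y)) := by
    have h5 : M 0 0 * (x * (M 0 0 * x + M 0 1 * y) + y * (M 0 1 * x + M 1 1 * y))
        = (M 0 0 * x + M 0 1 * y) ^ 2 + (M 0 0 * M 1 1 - M 0 1 * M 0 1) * y ^ 2 := by ring
    rw [h5]
    rcases eq_or_ne y 0 with rfl | hy
    · have : 0 < (M 0 0 * x) ^ 2 := by positivity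
      simpa using this
    · have : 0 < (M 0 0 * M 1 1 - M 0 1 * M 0 1) * y ^ 2 := mul_pos h3 (by positivity)
      positivity
  exact (mul_pos_iff_of_pos_left h2).1 h4

theorem proof_loc (hPOT : S_POT) : S_LOC := by
  intro Ω z₀ A hΩ hz₀ hA hpos
  obtain ⟨δ, hδ, hball, α, hα, hcurl, hα0, hdiv⟩ := hPOT Ω z₀ A hΩ hz₀ hA (hpos z₀ hz₀)
  obtain ⟨B, hBdef⟩ : ∃ B, B = ball z₀ δ := ⟨_, rfl⟩
  rw [← hBdef] at hball hdiv
  have hB : IsOpen B := by rw [hBdef]; exact isOpen_ball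
  have hBc : Convex ℝ B := by rw [hBdef]; exact convex_ball z₀ δ
  have hz : z₀ ∈ B := by rw [hBdef]; exact mem_ball_self hδ
  have hAB : ∀ i j, ContDiffOn ℝ ∞ (fun z => A z i j) B := fun i j => (hA i j).mono hball
  have hαB : ∀ j, ContDiffOn ℝ ∞ (α j) B := fun j => (hα j).contDiffOn
  -- the second form
  have hc : ∀ l, ContDiffOn ℝ ∞ (fun y => ∑ m, A y l m * α m y) B := fun l =>
    ContDiffOn.sum fun m _ => (hAB l m).mul (hαB m)
  obtain ⟨p, hp⟩ : ∃ p : P → ℝ, p = fun y => -(∑ m, A y 1 m * α m y) := ⟨_, rfl⟩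
  obtain ⟨q, hq⟩ : ∃ q : P → ℝ, q = fun y => ∑ m, A y 0 m * α m y := ⟨_, rfl⟩
  have hps : ContDiffOn ℝ ∞ p B := by rw [hp]; exact (hc 1).neg
  have hqs : ContDiffOn ℝ ∞ q B := by rw [hq]; exact hc 0
  obtain ⟨a, ha, has⟩ := prim hB hBc (hαB 0) (hαB 1) (fun x _ => hcurl x)
  obtain ⟨b, hb, hbs⟩ := prim hB hBc hps hqs (by
    intro x hx
    have h1 := hdiv x hx
    rw [Fin.sum_univ_two] at h1
    have h2 : fderiv ℝ p x (be 1) = -(fderiv ℝ (fun y => ∑ m, A y 1 m * α m y) x (be 1)) := by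
      rw [hp, fderiv_fun_neg]
      rfl
    rw [h2, hq]
    linarith)
  obtain ⟨ψ, hψ⟩ : ∃ ψ : P → ℂ, ψ = fun x => (a x : ℂ) + (b x : ℂ) * Complex.I := ⟨_, rfl⟩
  obtain ⟨D, hD⟩ : ∃ D : P → P →L[ℝ] ℂ, D = fun z => Complex.ofRealCLM.comp (om (α 0) (α 1) z)
      + (Complex.ofRealCLM.comp (om p q z)).smulRight Complex.I := ⟨_, rfl⟩
  have hψD : ∀ z ∈ B, HasFDerivAt ψ (D z) z := by
    intro z hz
    rw [hψ, hD]
    have h1 : HasFDerivAt (fun x => (a x : ℂ)) (Complex.ofRealCLM.comp (om (α 0) (α 1) z)) z :=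
      (Complex.ofRealCLM.hasFDerivAt).comp z (ha z hz)
    have h2 : HasFDerivAt (fun x => (b x : ℂ)) (Complex.ofRealCLM.comp (om p q z)) z :=
      (Complex.ofRealCLM.hasFDerivAt).comp z (hb z hz)
    exact h1.add (h2.mul_const' Complex.I)
  have hDa : ∀ z v, D z v = ((α 0 z * v 0 + α 1 z * v 1 : ℝ) : ℂ)
      + ((p z * v 0 + q z * v 1 : ℝ) : ℂ) * Complex.I := by
    intro z v
    rw [hD, ← om_apply, ← om_apply]
    rfl
  have hψs : ContDiffOn ℝ ∞ ψ B := by
    rw [hψ]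
    exact (Complex.ofRealCLM.contDiff.comp_contDiffOn has).add
      ((Complex.ofRealCLM.contDiff.comp_contDiffOn hbs).mul contDiffOn_const)
  have hinj : ∀ z ∈ B, Function.Injective (D z) := by
    intro z hz
    rw [injective_iff_map_eq_zero]
    intro v hv
    rw [hDa] at hv
    have h1 := congrArg Complex.re hv
    have h2 := congrArg Complex.im hv
    simp at h1 h2
    have h3 := pos_form (hpos z (hball hz)) (x := α 0 z) (y := α 1 z) (by linarith [hα0 z])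
    have h4 : α 0 z * q z - α 1 z * p z ≠ 0 := by
      rw [hp, hq]
      simp only [Fin.sum_univ_two]
      have h5 : α 0 z * (A z 0 0 * α 0 z + A z 0 1 * α 1 z)
          - α 1 z * -(A z 1 0 * α 0 z + A z 1 1 * α 1 z)
          = α 0 z * (A z 0 0 * α 0 z + A z 0 1 * α 1 z)
          + α 1 z * (A z 1 0 * α 0 z + A z 1 1 * α 1 z) := by ring
      rw [h5]
      exact h3.ne'
    obtain ⟨h6, h7⟩ := inj h4 h1 h2
    rw [decomp v, h6, h7]
    simp
  have hequiv : ∀ z ∈ B, ∃ e : P ≃L[ℝ] ℂ, (e : P →L[ℝ] ℂ) = D z := by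
    intro z hz
    refine ⟨(LinearMap.linearEquivOfInjective (D z).toLinearMap (hinj z hz)
      (by simp)).toContinuousLinearEquiv, ?_⟩
    ext v
    rfl
  obtain ⟨e₀, he₀⟩ := hequiv z₀ hz
  have hat : ∀ z ∈ B, ContDiffAt ℝ ∞ ψ z := fun z hz => hψs.contDiffAt (hB.mem_nhds hz)
  have hd0 : HasFDerivAt ψ (e₀ : P →L[ℝ] ℂ) z₀ := by rw [he₀]; exact hψD z₀ hz
  obtain ⟨PH, hPH, hsrc⟩ : ∃ PH : OpenPartialHomeomorph P ℂ, (PH : P → ℂ) = ψ ∧ z₀ ∈ PH.source :=
    ⟨(hat z₀ hz).toOpenPartialHomeomorph ψ hd0 (by simp),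
      ContDiffAt.toOpenPartialHomeomorph_coe _ _ _,
      ContDiffAt.mem_toOpenPartialHomeomorph_source _ _ _⟩
  have hWo : IsOpen (PH.source ∩ B) := PH.open_source.inter hB
  refine ⟨PH.source ∩ B, α, ψ, PH.symm, ⟨hsrc, hz⟩, fun z hz => hball hz.2, ?_⟩
  constructor
  · exact hWo
  · rw [← hPH]
    exact PH.isOpen_image_of_subset_source hWo inter_subset_left
  · exact hψs.mono inter_subset_right
  · rintro w ⟨z, hzW, rfl⟩
    obtain ⟨e, he⟩ := hequiv z hzW.2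
    have h1 : PH.symm (ψ z) = z := by
      rw [← hPH]
      exact PH.left_inv hzW.1
    have h2 : ψ z ∈ PH.target := by
      rw [← hPH]
      exact PH.map_source hzW.1
    refine (PH.contDiffAt_symm (f₀' := e) h2 ?_ ?_).contDiffWithinAt
    · rw [h1, hPH, he]
      exact hψD z hzW.2
    · rw [h1, hPH]
      exact hat z hzW.2
  · intro z hzW
    rw [← hPH]
    exact PH.left_inv hzW.1
  · intro j
    exact (hα j).contDiffOn
  · intro x _
    exact hcurl x
  · intro x hx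
    exact hdiv x hx.2
  · intro x _
    linarith [hα0 x]
  · intro z hzW v
    rw [(hψD z hzW.2).fderiv, hDa, hp, hq, Fin.sum_univ_two]

end Pool.Agent.Q38.ISO.LOC
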